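import Pool.Agent.Mg.F18c441.G6a8254

/-!
A left-linear semi-equational conditional rewrite system is confluent if its overlaps below the
root are infeasible and its feasible root overlaps agree modulo the own conditions of each rule.
-/

namespace Pool.Agent.Results.MP_18c441_lc.Criterion

open Pool.Agent.MP_18c441_lc

theorem result {F : Type} {ar : F → ℕ} (R : Set (Rule ar)) (hwf : ∀ ρ ∈ R, ρ.WF)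
    (hinner : ∀ ρ₁ ∈ R, ∀ ρ₂ ∈ R, ∀ p, PSub p ρ₁.l → (∀ x, p ≠ Tm.var x) →
      ∀ σ₁ σ₂ : ℕ → Tm ar ℕ, p.sub σ₁ = ρ₂.l.sub σ₂ → ¬ (Holds R ρ₁ σ₁ ∧ Holds R ρ₂ σ₂))
    (hroot : ∀ ρ₁ ∈ R, ∀ ρ₂ ∈ R,
      (∃ τ₁ τ₂ : ℕ → Tm ar ℕ, ρ₁.l.sub τ₁ = ρ₂.l.sub τ₂ ∧ Holds R ρ₁ τ₁ ∧ Holds R ρ₂ τ₂) →
      ∀ σ₁ σ₂ : ℕ → Tm ar ℕ, ρ₁.l.sub σ₁ = ρ₂.l.sub σ₂ →
        ∃ r₁ r₂, Variant ρ₁ r₁ ∧ Variant ρ₂ r₂ ∧ r₁.sub σ₁ = r₂.sub σ₂)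
    (t t₁ t₂ : Tm ar ℕ) (h₁ : Relation.ReflTransGen (Red R) t t₁)
    (h₂ : Relation.ReflTransGen (Red R) t t₂) :
    ∃ u, Relation.ReflTransGen (Red R) t₁ u ∧ Relation.ReflTransGen (Red R) t₂ u :=
  confluent hwf (fun ρ₁ h1 ρ₂ h2 p hp hv σ₁ σ₂ h h3 h4 =>
    hinner ρ₁ h1 ρ₂ h2 p hp hv σ₁ σ₂ h ⟨h3, h4⟩) hroot h₁ h₂

end Pool.Agent.Results.MP_18c441_lc.Criterion
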