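import Pool.Agent.Mg.F18c441a.Gde8c11

namespace Pool.Agent.Results.MP_18c441_lc.LambdaBeta

open Pool.Agent.MP_18c441_lc.Lam

theorem result (t t₁ t₂ : Tm) (h₁ : Relation.ReflTransGen Red t t₁)
    (h₂ : Relation.ReflTransGen Red t t₂) :
    ∃ u : Tm, Relation.ReflTransGen Red t₁ u ∧ Relation.ReflTransGen Red t₂ u :=
  church_rosser (.trans _ _ _ (.symm _ _ (rs_cv h₁)) (rs_cv h₂))

end Pool.Agent.Results.MP_18c441_lc.LambdaBeta
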